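import Pool.Agent.MTF.StmtsA

/-! MTF, module IRR. -/

set_option autoImplicit false

namespace Pool.Agent.MTF.H24

open Matrix Polynomial

set_option linter.unusedSectionVars false

variable {d : Type} [Fintype d] [DecidableEq d]

/-! ### Degrees -/

/-- the matrices which map `V p` into the sum of the `V p'`, `p' ∈ S p` -/
def DS (V : ℕ → Submodule ℂ (d → ℂ)) (S : ℕ → Set ℕ) (X : Matrix d d ℂ) : Prop :=
  ∀ p, ∀ x ∈ V p, X *ᵥ x ∈ ⨆ p' ∈ S p, V p'

/-- `ad H` -/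
def ad (H : Matrix d d ℂ) : Matrix d d ℂ →ₗ[ℂ] Matrix d d ℂ :=
  LinearMap.mulLeft ℂ H - LinearMap.mulRight ℂ H

theorem ad_apply (H X : Matrix d d ℂ) : ad H X = H * X - X * H := rfl

theorem DS.step {V : ℕ → Submodule ℂ (d → ℂ)} {S : ℕ → Set ℕ} {H X : Matrix d d ℂ} {w : ℂ}
    (hH : ∀ p, ∀ x ∈ V p, H *ᵥ x = ((p : ℂ) - w) • x) (h : DS V S X) (c : ℂ) :
    DS V (fun p => {p' | p' ∈ S p ∧ (p' : ℂ) - p ≠ c}) (ad H X - c • X) := by
  intro p x hx
  have h1 : (ad H X - c • X) *ᵥ x = H *ᵥ (X *ᵥ x) - ((p : ℂ) - w + c) • (X *ᵥ x) := by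
    rw [ad_apply, sub_mulVec, sub_mulVec, ← mulVec_mulVec, ← mulVec_mulVec, hH p x hx,
      mulVec_smul, smul_mulVec, add_smul, sub_sub]
  rw [h1]
  have h2 := h p x hx
  generalize X *ᵥ x = y at h2
  refine Submodule.iSup_induction' (p := fun p' => ⨆ _ : p' ∈ S p, V p')
    (motive := fun y _ => H *ᵥ y - ((p : ℂ) - w + c) • y ∈
      ⨆ p' ∈ {p' | p' ∈ S p ∧ (p' : ℂ) - p ≠ c}, V p') ?_ ?_ ?_ h2
  · intro p' y hy
    by_cases hp : p' ∈ S p
    · rw [iSup_pos hp] at hy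
      rw [hH p' y hy, ← sub_smul]
      by_cases hc : (p' : ℂ) - p = c
      · have h3 : (p' : ℂ) - w - ((p : ℂ) - w + c) = 0 := by
          rw [← hc]
          ring
        rw [h3, zero_smul]
        exact Submodule.zero_mem _
      · refine Submodule.smul_mem _ _ ?_
        exact (le_iSup₂_of_le (f := fun p' (_ : p' ∈ {p' | p' ∈ S p ∧ (p' : ℂ) - p ≠ c}) => V p')
          p' ⟨hp, hc⟩ le_rfl) hy
    · rw [iSup_neg hp, Submodule.mem_bot] at hy
      rw [hy, mulVec_zero, smul_zero, sub_zero]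
      exact Submodule.zero_mem _
  · rw [mulVec_zero, smul_zero, sub_zero]
    exact Submodule.zero_mem _
  · intro y z _ _ hy hz
    have h3 : H *ᵥ (y + z) - ((p : ℂ) - w + c) • (y + z) =
        (H *ᵥ y - ((p : ℂ) - w + c) • y) + (H *ᵥ z - ((p : ℂ) - w + c) • z) := by
      rw [mulVec_add, smul_add]
      abel
    rw [h3]
    exact Submodule.add_mem _ hy hz

theorem DS.iter {V : ℕ → Submodule ℂ (d → ℂ)} {S : ℕ → Set ℕ} {H X : Matrix d d ℂ} {w : ℂ}
    (hH : ∀ p, ∀ x ∈ V p, H *ᵥ x = ((p : ℂ) - w) • x) (h : DS V S X) (c : ℕ → ℂ) (n : ℕ) :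
    DS V (fun p => {p' | p' ∈ S p ∧ ∀ j < n, (p' : ℂ) - p ≠ c j})
      (aeval (ad H) (∏ j ∈ Finset.range n, (Polynomial.X - C (c j))) X) := by
  induction n with
  | zero =>
    rw [Finset.range_zero, Finset.prod_empty, map_one]
    intro p x hx
    have h1 := h p x hx
    refine (iSup₂_mono' (f := fun p' (_ : p' ∈ S p) => V p') ?_) h1
    intro p' hp'
    exact ⟨p', ⟨hp', by intro j hj; omega⟩, le_rfl⟩
  | succ n ih =>
    rw [Finset.prod_range_succ, mul_comm, map_mul]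
    have h1 := ih.step hH (c n)
    have h2 : (aeval (ad H) (Polynomial.X - C (c n)) *
        aeval (ad H) (∏ j ∈ Finset.range n, (Polynomial.X - C (c j)))) X =
        ad H (aeval (ad H) (∏ j ∈ Finset.range n, (Polynomial.X - C (c j))) X) -
          c n • aeval (ad H) (∏ j ∈ Finset.range n, (Polynomial.X - C (c j))) X := by
      rw [Module.End.mul_apply, map_sub, aeval_X, aeval_C, LinearMap.sub_apply,
        Module.algebraMap_end_apply]
    rw [h2]
    intro p x hx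
    refine (iSup₂_mono' (f := fun p' (_ : p' ∈ {p' | p' ∈ {p' | p' ∈ S p ∧
      ∀ j < n, (p' : ℂ) - p ≠ c j} ∧ (p' : ℂ) - p ≠ c n}) => V p') ?_) (h1 p x hx)
    intro p' hp'
    refine ⟨p', ⟨hp'.1.1, ?_⟩, le_rfl⟩
    intro j hj
    rcases Nat.lt_succ_iff_lt_or_eq.1 hj with h3 | h3
    · exact hp'.1.2 j h3
    · rw [h3]
      exact hp'.2

/-- a matrix of empty degree vanishes -/
theorem DS.eq_zero {V : ℕ → Submodule ℂ (d → ℂ)} {S : ℕ → Set ℕ} {X : Matrix d d ℂ}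
    (hspan : ⨆ p, V p = ⊤) (h : DS V S X) (hS : ∀ p, V p = ⊥ ∨ ∀ p' ∈ S p, V p' = ⊥) : X = 0 := by
  have h1 : ∀ x : d → ℂ, X *ᵥ x = 0 := by
    intro x
    have hx : x ∈ ⨆ p, V p := by
      rw [hspan]
      exact Submodule.mem_top
    refine Submodule.iSup_induction V (motive := fun x => X *ᵥ x = 0) hx ?_ ?_ ?_
    · intro p y hy
      rcases hS p with h2 | h2
      · rw [h2, Submodule.mem_bot] at hy
        rw [hy, mulVec_zero]
      · have h3 := h p y hy
        have h4 : ⨆ p' ∈ S p, V p' = ⊥ := by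
          rw [eq_bot_iff]
          exact iSup₂_le fun p' hp' => (h2 p' hp').le
        rw [h4, Submodule.mem_bot] at h3
        exact h3
    · exact mulVec_zero _
    · intro y z hy hz
      rw [mulVec_add, hy, hz, add_zero]
  have h2 : X.mulVecLin = 0 := LinearMap.ext fun x => h1 x
  rw [← toLin'_apply'] at h2
  exact (LinearEquiv.map_eq_zero_iff _).1 h2

theorem aeval_mem {g : Submodule ℂ (Matrix d d ℂ)} {H : Matrix d d ℂ}
    (hg : ∀ X ∈ g, ad H X ∈ g) (P : ℂ[X]) {X : Matrix d d ℂ} (hX : X ∈ g) :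
    aeval (ad H) P X ∈ g := by
  rw [aeval_eq_sum_range, LinearMap.sum_apply]
  refine Submodule.sum_mem _ fun i hi => ?_
  rw [LinearMap.smul_apply]
  refine Submodule.smul_mem _ _ ?_
  clear hi
  induction i with
  | zero => simpa using hX
  | succ i ih =>
    rw [pow_succ', Module.End.mul_apply]
    exact hg _ ih

/-- the negative part of an element of `g + F0` is in `g` -/
theorem neg_mem {V : ℕ → Submodule ℂ (d → ℂ)} {g : Submodule ℂ (Matrix d d ℂ)}
    {H N : Matrix d d ℂ} {w : ℕ} (hH : ∀ p, ∀ x ∈ V p, H *ᵥ x = ((p : ℂ) - w / 2) • x)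
    (htop : ∀ p, w < p → V p = ⊥) (hspan : ⨆ p, V p = ⊤) (hg : ∀ X ∈ g, ad H X ∈ g)
    (hN : DS V Set.Iio N) (hNg : N ∈ g ⊔ F0 V) : N ∈ g := by
  obtain ⟨Y, hY, A, hA, hYA⟩ := Submodule.mem_sup.1 hNg
  obtain ⟨P, hP⟩ : ∃ P : ℂ[X], P = ∏ j ∈ Finset.range (w + 1), (Polynomial.X - C (j : ℂ)) :=
    ⟨_, rfl⟩
  obtain ⟨R, hR⟩ : ∃ R : ℂ[X], R = ∏ j ∈ Finset.range w, (Polynomial.X - C (-(j + 1 : ℂ))) :=
    ⟨_, rfl⟩
  have hPA : aeval (ad H) P A = 0 := by
    have h1 : DS V Set.Ici A := by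
      intro p x hx
      exact hA p x ((le_iSup₂_of_le (f := fun p' (_ : p' ∈ Set.Ici p) => V p') p
        (Set.mem_Ici.2 le_rfl) le_rfl) hx)
    rw [hP]
    refine (h1.iter hH (fun j => (j : ℂ)) (w + 1)).eq_zero hspan ?_
    intro p
    right
    rintro p' ⟨hp, hj⟩
    apply htop
    by_contra hcon
    have hp2 : p ≤ p' := hp
    have h2 := hj (p' - p) (by omega)
    apply h2
    push_cast [hp2]
    rfl
  have hRN : aeval (ad H) R N = 0 := by
    rw [hR]
    refine (hN.iter hH (fun j => (-(j + 1 : ℂ))) w).eq_zero hspan ?_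
    intro p
    by_cases hpw : w < p
    · left
      exact htop p hpw
    · right
      rintro p' ⟨hp, hj⟩
      exfalso
      have hp2 : p' < p := hp
      have h2 := hj (p - p' - 1) (by omega)
      apply h2
      have h3 : p - p' - 1 = p - (p' + 1) := by omega
      rw [h3]
      push_cast [Nat.succ_le_of_lt hp2]
      ring
  have hco : IsCoprime P R := by
    rw [hP, hR]
    refine IsCoprime.prod_left fun i _ => IsCoprime.prod_right fun j _ => ?_
    apply isCoprime_X_sub_C_of_isUnit_sub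
    rw [isUnit_iff_ne_zero]
    intro h0
    have h1 : ((i + j + 1 : ℕ) : ℂ) = 0 := by
      push_cast
      linear_combination h0
    exact Nat.cast_ne_zero.2 (Nat.succ_ne_zero (i + j)) h1
  obtain ⟨a, b, hab⟩ := hco
  have h1 : N = aeval (ad H) (a * P) N + aeval (ad H) (b * R) N := by
    rw [← LinearMap.add_apply, ← map_add, hab, map_one]
    rfl
  have h2 : aeval (ad H) (b * R) N = 0 := by
    rw [map_mul, Module.End.mul_apply, hRN, map_zero]
  have h3 : aeval (ad H) (a * P) N = aeval (ad H) (a * P) Y := by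
    rw [← hYA, map_add, map_mul, Module.End.mul_apply, Module.End.mul_apply, hPA, map_zero,
      add_zero]
  rw [h1, h2, add_zero, h3]
  exact aeval_mem hg _ hY

/-! ### The elements `v . v'` -/

/-- `v . v'` -/
def vv (Ψ : Matrix d d ℂ) (v v' : d → ℂ) : Matrix d d ℂ :=
  vecMulVec v' (v ᵥ* Ψ) + vecMulVec v (v' ᵥ* Ψ)

theorem vv_mulVec (Ψ : Matrix d d ℂ) (v v' x : d → ℂ) :
    vv Ψ v v' *ᵥ x = (v ⬝ᵥ (Ψ *ᵥ x)) • v' + (v' ⬝ᵥ (Ψ *ᵥ x)) • v := by
  rw [vv, add_mulVec, vecMulVec_mulVec, vecMulVec_mulVec, dotProduct_mulVec, dotProduct_mulVec,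
    op_smul_eq_smul, op_smul_eq_smul]

theorem vv_sk {Ψ : Matrix d d ℂ} (h : Ψᵀ = -Ψ) (v v' : d → ℂ) : vv Ψ v v' ∈ sk Ψ := by
  have h1 : ∀ v : d → ℂ, Ψ *ᵥ v = -(v ᵥ* Ψ) := by
    intro v
    rw [← mulVec_transpose, h, neg_mulVec, neg_neg]
  change (vv Ψ v v')ᵀ * Ψ + Ψ * vv Ψ v v' = 0
  rw [vv, transpose_add, transpose_vecMulVec, transpose_vecMulVec, add_mul, mul_add,
    vecMulVec_mul, vecMulVec_mul, mul_vecMulVec, mul_vecMulVec, h1, h1, neg_vecMulVec,
    neg_vecMulVec]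
  abel

theorem vv_sum (Ψ : Matrix d d ℂ) (v : d → ℂ) {n : ℕ} (l : Fin n → ℂ) (u : Fin n → d → ℂ) :
    ∑ j, l j • vv Ψ v (u j) = vv Ψ v (∑ j, l j • u j) := by
  have h1 : ∀ x, (∑ j, l j • vv Ψ v (u j)) *ᵥ x = vv Ψ v (∑ j, l j • u j) *ᵥ x := by
    intro x
    rw [sum_mulVec, vv_mulVec, sum_dotProduct, Finset.smul_sum, Finset.sum_smul,
      ← Finset.sum_add_distrib]
    refine Finset.sum_congr rfl fun j _ => ?_
    rw [smul_mulVec, vv_mulVec, smul_add, smul_dotProduct, smul_smul, smul_smul, smul_smul,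
      smul_eq_mul, mul_comm (l j) (v ⬝ᵥ (Ψ *ᵥ x))]
  have h2 : (∑ j, l j • vv Ψ v (u j)).mulVecLin = (vv Ψ v (∑ j, l j • u j)).mulVecLin :=
    LinearMap.ext h1
  rw [← toLin'_apply', ← toLin'_apply'] at h2
  exact toLin'.injective h2

theorem skew_self {Ψ : Matrix d d ℂ} (h : Ψᵀ = -Ψ) (v v' : d → ℂ) :
    v' ⬝ᵥ (Ψ *ᵥ v) = -(v ⬝ᵥ (Ψ *ᵥ v')) := by
  have h1 : Ψ *ᵥ v = -(v ᵥ* Ψ) := by
    rw [← mulVec_transpose, h, neg_mulVec, neg_neg]
  rw [h1, dotProduct_neg, dotProduct_mulVec, dotProduct_comm]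

theorem vv_sq {Ψ : Matrix d d ℂ} (h : Ψᵀ = -Ψ) {v v' : d → ℂ} (hvv : v ⬝ᵥ (Ψ *ᵥ v') = 0) :
    vv Ψ v v' * vv Ψ v v' = 0 := by
  have hs : ∀ v : d → ℂ, v ⬝ᵥ (Ψ *ᵥ v) = 0 := by
    intro v
    have h1 := skew_self h v v
    exact self_eq_neg.1 h1
  have h1 : ∀ x, (vv Ψ v v' * vv Ψ v v') *ᵥ x = 0 := by
    intro x
    rw [← mulVec_mulVec, vv_mulVec Ψ v v' (vv Ψ v v' *ᵥ x), vv_mulVec, mulVec_add, mulVec_smul,
      mulVec_smul, dotProduct_add, dotProduct_add, dotProduct_smul, dotProduct_smul,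
      dotProduct_smul, dotProduct_smul, hvv, hs, hs, skew_self h v v', hvv]
    simp
  have h2 : (vv Ψ v v' * vv Ψ v v').mulVecLin = 0 := LinearMap.ext fun x => h1 x
  rw [← toLin'_apply'] at h2
  exact (LinearEquiv.map_eq_zero_iff _).1 h2

theorem rank_add_le' (A B : Matrix d d ℂ) : (A + B).rank ≤ A.rank + B.rank := by
  unfold Matrix.rank
  refine (Submodule.finrank_mono ?_).trans (Submodule.finrank_add_le_finrank_add_finrank _ _)
  rintro _ ⟨x, rfl⟩
  change (A + B) *ᵥ x ∈ _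
  rw [add_mulVec]
  exact Submodule.add_mem_sup ⟨x, rfl⟩ ⟨x, rfl⟩

theorem vv_rank (Ψ : Matrix d d ℂ) (v v' : d → ℂ) : (vv Ψ v v').rank ≤ 2 := by
  refine (rank_add_le' _ _).trans ?_
  have h1 := rank_vecMulVec_le v' (v ᵥ* Ψ)
  have h2 := rank_vecMulVec_le v (v' ᵥ* Ψ)
  omega

/-! ### The irreducible case -/

theorem irr : IrrStmt := by
  intro d _ _ w Ψ V g hL κ m hκ hm hdep
  -- the lowest piece
  have hex : ∃ p, V p ≠ ⊥ := by
    by_contra hcon
    push Not at hcon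
    have h1 : (⊤ : Submodule ℂ (d → ℂ)) = ⊥ := by
      rw [← hL.span]
      simp [hcon]
    have h2 := congrArg (fun W : Submodule ℂ (d → ℂ) => Module.finrank ℂ W) h1
    simp only [finrank_top, finrank_bot, Module.finrank_fintype_fun_eq_card] at h2
    omega
  classical
  obtain ⟨p₀, hp₀, hmin⟩ : ∃ p, V p ≠ ⊥ ∧ ∀ q < p, V q = ⊥ :=
    ⟨Nat.find hex, Nat.find_spec hex, fun q hq => by
      by_contra h
      exact Nat.find_min hex hq h⟩
  have hpw : p₀ ≤ w := by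
    by_contra h
    exact hp₀ (hL.top p₀ (by omega))
  have hhigh : ∀ p, w - p₀ < p → V p = ⊥ := by
    intro p hp
    by_cases hw : w < p
    · exact hL.top p hw
    · rw [Submodule.eq_bot_iff]
      intro x hx
      have h1 := hL.conj p (by omega) x hx
      rw [hmin (w - p) (by omega), Submodule.mem_bot] at h1
      exact star_eq_zero.1 h1
  obtain ⟨v, hv, hv0⟩ := Submodule.exists_mem_ne_zero_of_ne_bot hp₀
  -- the space of the `v'`
  obtain ⟨W, hW⟩ : ∃ W : Submodule ℂ (d → ℂ), W = ⨆ q ∈ Set.Iio (w - p₀), V q := ⟨_, rfl⟩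
  have hWtop : W ⊔ V (w - p₀) = ⊤ := by
    rw [eq_top_iff, ← hL.span]
    refine iSup_le fun p => ?_
    rcases lt_trichotomy p (w - p₀) with h | h | h
    · refine le_trans ?_ le_sup_left
      rw [hW]
      exact le_iSup₂_of_le (f := fun q (_ : q ∈ Set.Iio (w - p₀)) => V q) p h le_rfl
    · rw [h]
      exact le_sup_right
    · rw [hhigh p h]
      exact bot_le
  have hdim : m + 1 ≤ Module.finrank ℂ W := by
    have h1 := Submodule.finrank_add_le_finrank_add_finrank W (V (w - p₀))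
    rw [hWtop, finrank_top, Module.finrank_fintype_fun_eq_card] at h1
    have h2 := hκ (w - p₀)
    omega
  obtain ⟨u, hu⟩ := exists_linearIndependent_of_le_finrank hdim
  obtain ⟨l, hl, hmem⟩ := hdep (fun j => vv Ψ v (u j : d → ℂ)) (fun j => vv_sk hL.skew _ _)
  rw [vv_sum] at hmem
  obtain ⟨v', hv'⟩ : ∃ v' : d → ℂ, v' = ∑ j, l j • (u j : d → ℂ) := ⟨_, rfl⟩
  rw [← hv'] at hmem
  have hv'W : v' ∈ W := by
    rw [hv']
    exact Submodule.sum_mem _ fun j _ => Submodule.smul_mem _ _ (u j).2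
  have hv'0 : v' ≠ 0 := by
    intro h0
    apply hl
    have h1 : ∑ j, l j • u j = 0 := by
      apply Subtype.ext
      rw [Submodule.coe_sum]
      simpa [hv'] using h0
    exact funext (Fintype.linearIndependent_iff.1 hu l h1)
  have horth : ∀ p, p ≤ p₀ → ∀ x ∈ V p, ∀ y ∈ W, y ⬝ᵥ (Ψ *ᵥ x) = 0 := by
    intro p hp x hx y hy
    rw [hW] at hy
    refine Submodule.iSup_induction (fun q => ⨆ _ : q ∈ Set.Iio (w - p₀), V q)
      (motive := fun y => y ⬝ᵥ (Ψ *ᵥ x) = 0) hy ?_ ?_ ?_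
    · intro q y hy
      by_cases hq : q ∈ Set.Iio (w - p₀)
      · rw [iSup_pos hq] at hy
        have hq' : q < w - p₀ := hq
        exact hL.orth q p (by omega) y hy x hx
      · rw [iSup_neg hq, Submodule.mem_bot] at hy
        rw [hy, zero_dotProduct]
    · exact zero_dotProduct _
    · intro y z hy hz
      rw [add_dotProduct, hy, hz, add_zero]
  have hvv' : v ⬝ᵥ (Ψ *ᵥ v') = 0 := by
    have h1 := horth p₀ le_rfl v hv v' hv'W
    rw [skew_self hL.skew v v'] at h1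
    exact neg_eq_zero.1 h1
  obtain ⟨H, hHg, hH⟩ := hL.hh
  have hDS : DS V Set.Iio (vv Ψ v v') := by
    intro p x hx
    rw [vv_mulVec]
    refine Submodule.add_mem _ ?_ ?_
    · by_cases hp : p₀ + p = w
      · refine Submodule.smul_mem _ _ ?_
        have h1 : w - p₀ = p := by omega
        rw [hW, h1] at hv'W
        exact hv'W
      · rw [hL.orth p₀ p hp v hv x hx, zero_smul]
        exact Submodule.zero_mem _
    · by_cases hp : p ≤ p₀
      · rw [horth p hp x hx v' hv'W, zero_smul]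
        exact Submodule.zero_mem _
      · refine Submodule.smul_mem _ _ ?_
        exact (le_iSup₂_of_le (f := fun q (_ : q ∈ Set.Iio p) => V q) p₀
          (Set.mem_Iio.2 (by omega)) le_rfl) hv
  refine ⟨vv Ψ v v', ?_, ?_, vv_sq hL.skew hvv', vv_rank Ψ v v'⟩
  · refine neg_mem (w := w) hH hL.top hL.span ?_ hDS hmem
    intro X hX
    exact hL.br H hHg X hX
  · intro h0
    obtain ⟨t, ht, hpos⟩ := hL.pos p₀ hpw v hv hv0
    have hα : v ⬝ᵥ (Ψ *ᵥ star v) ≠ 0 := by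
      intro h1
      rw [h1, mul_zero] at hpos
      have h2 : (t : ℂ) = 0 := hpos.symm
      exact ht.ne' (by exact_mod_cast h2)
    have h1 := vv_mulVec Ψ v v' (star v)
    rw [h0, zero_mulVec] at h1
    obtain ⟨α, hα'⟩ : ∃ α, α = v ⬝ᵥ (Ψ *ᵥ star v) := ⟨_, rfl⟩
    obtain ⟨β, hβ'⟩ : ∃ β, β = v' ⬝ᵥ (Ψ *ᵥ star v) := ⟨_, rfl⟩
    rw [← hα', ← hβ'] at h1
    rw [← hα'] at hα
    have h2 : α • v' = -(β • v) := eq_neg_of_add_eq_zero_left h1.symm
    have h3 : α * β = -(β * α) := by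
      have h4 := congrArg (fun z => z ⬝ᵥ (Ψ *ᵥ star v)) h2
      simp only [smul_dotProduct, neg_dotProduct, ← hα', ← hβ', smul_eq_mul] at h4
      exact h4
    have h4 : β = 0 := by
      have h5 : α * β = -(α * β) := by
        rw [mul_comm β α] at h3
        exact h3
      have h6 : α * β = 0 := self_eq_neg.1 h5
      exact (mul_eq_zero.1 h6).resolve_left hα
    rw [h4, zero_smul, neg_zero] at h2
    rcases smul_eq_zero.1 h2 with h | h
    · exact hα h
    · exact hv'0 h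

end Pool.Agent.MTF.H24
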